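import Pool.Agent.Lib.MP_d470cf_nt.NP.ScalesMain

set_option autoImplicit false

namespace Pool.Agent.Results.MP_d470cf_nt.AllScales

open Pool.Agent.Lib.MP_d470cf_nt NumberField NumberField.Units Filter

/-- The field underlying a real quadratic subfield of `ℝ`, as a type. -/
def Fld (K : RealQuadraticField) : Type := K.1

noncomputable instance instField (K : RealQuadraticField) : Field (Fld K) :=
  IntermediateField.toField K.1

instance instNumberField (K : RealQuadraticField) : NumberField (Fld K) :=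
  (inferInstance : NumberField K.1)

/-- The regulator of a real quadratic field. -/
noncomputable def reg (K : RealQuadraticField) : ℝ := regulator (Fld K)

/-- The number of Wall-Sun-Sun primes `p ≤ x` of a real quadratic field. -/
noncomputable def countWSS (K : RealQuadraticField) (x : ℝ) : ℕ :=
  Set.ncard {p : ℕ | (p : ℝ) ≤ x ∧ IsWSS (Fld K) p}

/-- Order the real quadratic fields by their regulator. For every `ε > 0` and every `ψ(Y) → ∞`, for
one hundred percent of the fields of regulator at most `Y` the number of Wall-Sun-Sun primes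
`p ≤ x` lies between `(1 - ε) log log x` and `(1 + ε) log log x` for all `x` with
`ψ(Y) ≤ x ≤ exp (Y / 2)` at the same time. -/
theorem result (ε : ℝ) (hε : 0 < ε) (ψ : ℝ → ℝ) (hψ : Tendsto ψ atTop atTop) :
    Tendsto (fun Y : ℝ =>
      (Set.ncard {K : RealQuadraticField | reg K ≤ Y ∧ ∀ x : ℝ, ψ Y ≤ x → x ≤ Real.exp (Y / 2) →
        |(countWSS K x : ℝ) - Real.log (Real.log x)| ≤ ε * Real.log (Real.log x)} : ℝ) /
      (Set.ncard {K : RealQuadraticField | reg K ≤ Y} : ℝ)) atTop (nhds 1) := by
  classical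
  refine (NP.scales_main ε hε ψ hψ).congr' ?_
  filter_upwards [hψ.eventually_ge_atTop 0] with Y hY0
  congr 2
  · rw [← Set.ncard_coe_finset]
    congr 1
    ext K
    rw [Finset.mem_coe, Finset.mem_filter, EK.mem_FF]
    have e2 : (K ∈ FY Y) ↔ reg K ≤ Y := Iff.rfl
    have e1 : ∀ x : ℝ, 0 ≤ x → countWSS K x = EK.wS (nm K) x (tr K).toNat :=
      fun x hx => EK.wss_count_eq K x hx
    show _ ↔ (reg K ≤ Y ∧ ∀ x : ℝ, ψ Y ≤ x → x ≤ Real.exp (Y / 2) →
        |(countWSS K x : ℝ) - Real.log (Real.log x)| ≤ ε * Real.log (Real.log x))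
    rw [e2]
    constructor
    · rintro ⟨h1, h2⟩
      refine ⟨h1, fun x hx1 hx2 => ?_⟩
      rw [e1 x (hY0.trans hx1)]
      exact h2 x hx1 hx2
    · rintro ⟨h1, h2⟩
      refine ⟨h1, fun x hx1 hx2 => ?_⟩
      rw [← e1 x (hY0.trans hx1)]
      exact h2 x hx1 hx2
  · rw [← Set.ncard_coe_finset]
    congr 1
    ext K
    rw [Finset.mem_coe, EK.mem_FF]
    exact Iff.rfl

end Pool.Agent.Results.MP_d470cf_nt.AllScales
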