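import Pool.Agent.Lib.MP_d470cf_nt.EK.Transfer
import Pool.Agent.Lib.MP_d470cf_nt.EK.Levy

set_option autoImplicit false

namespace Pool.Agent.Results.MP_d470cf_nt.ErdosKac

open Pool.Agent.Lib.MP_d470cf_nt NumberField NumberField.Units Filter

/-- The field underlying a real quadratic subfield of `ℝ`, as a type. -/
def Fld (K : RealQuadraticField) : Type := K.1

noncomputable instance instField (K : RealQuadraticField) : Field (Fld K) :=
  IntermediateField.toField K.1

instance instNumberField (K : RealQuadraticField) : NumberField (Fld K) :=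
  (inferInstance : NumberField K.1)

/-- The regulator of a real quadratic field. -/
noncomputable def reg (K : RealQuadraticField) : ℝ := regulator (Fld K)

/-- The number of Wall-Sun-Sun primes `p ≤ x` of a real quadratic field. -/
noncomputable def countWSS (K : RealQuadraticField) (x : ℝ) : ℕ :=
  Set.ncard {p : ℕ | (p : ℝ) ≤ x ∧ IsWSS (Fld K) p}

/-- The distribution function of the standard normal distribution. -/
noncomputable def normalCDF (u : ℝ) : ℝ :=
  ∫ s in Set.Iic u, Real.exp (-(s ^ 2 / 2)) / Real.sqrt (2 * Real.pi)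

/-- Order the real quadratic fields `K` by their regulator. For every bound `P(Y) → ∞` with
`P(Y) ≤ exp (Y / 2)`, put `L = log log P(Y)` and let `w(K)` be the number of Wall-Sun-Sun primes
`p ≤ P(Y)` of `K`. Over the fields of regulator at most `Y`, the distribution of
`(w(K) - L) / √L` converges to the standard normal distribution as `Y → ∞`. -/
theorem result (P : ℝ → ℝ) (hP : Tendsto P atTop atTop)
    (hP2 : ∀ᶠ Y in atTop, P Y ≤ Real.exp (Y / 2)) (u : ℝ) :
    Tendsto (fun Y : ℝ =>
      (Set.ncard {K : RealQuadraticField | reg K ≤ Y ∧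
        (countWSS K (P Y) : ℝ) ≤
          Real.log (Real.log (P Y)) + u * Real.sqrt (Real.log (Real.log (P Y)))} : ℝ) /
      (Set.ncard {K : RealQuadraticField | reg K ≤ Y} : ℝ)) atTop (nhds (normalCDF u)) := by
  classical
  have hlim : Tendsto (fun Y : ℝ => Real.log (Real.log (P Y))) atTop atTop :=
    Real.tendsto_log_atTop.comp (Real.tendsto_log_atTop.comp hP)
  have hne : ∀ᶠ Y : ℝ in atTop, (EK.FF Y).Nonempty := by
    obtain ⟨Y0, hY0⟩ := FY_ge_quarter
    filter_upwards [eventually_ge_atTop Y0] with Y hY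
    have h1 := hY0 Y hY
    have h2 : (0 : ℝ) < ((FY Y).ncard : ℝ) := lt_of_lt_of_le (by positivity) h1
    have h3 : 0 < (FY Y).ncard := by exact_mod_cast h2
    obtain ⟨K, hK⟩ := Set.nonempty_of_ncard_ne_zero h3.ne'
    exact ⟨K, (EK.mem_FF Y K).2 hK⟩
  have h := EK.levy_real EK.FF hne
    (fun Y K => ((EK.wS (nm K) (P Y) (tr K).toNat : ℝ) - Real.log (Real.log (P Y))) /
      Real.sqrt (Real.log (Real.log (P Y))))
    (fun θ => EK.fields_char θ P hP hP2) u
  refine h.congr' ?_
  filter_upwards [hlim.eventually_gt_atTop 0, hP.eventually_ge_atTop 0] with Y hL hP0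
  have hs : 0 < Real.sqrt (Real.log (Real.log (P Y))) := Real.sqrt_pos.2 hL
  congr 2
  · rw [← Set.ncard_coe_finset]
    congr 1
    ext K
    rw [Finset.mem_coe, Finset.mem_filter, EK.mem_FF]
    have e1 : countWSS K (P Y) = EK.wS (nm K) (P Y) (tr K).toNat := EK.wss_count_eq K (P Y) hP0
    have e2 : (K ∈ FY Y) ↔ reg K ≤ Y := Iff.rfl
    show _ ↔ (reg K ≤ Y ∧ (countWSS K (P Y) : ℝ) ≤
          Real.log (Real.log (P Y)) + u * Real.sqrt (Real.log (Real.log (P Y))))
    rw [e1, e2, div_le_iff₀ hs, sub_le_iff_le_add']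
  · rw [← Set.ncard_coe_finset]
    congr 1
    ext K
    rw [Finset.mem_coe, EK.mem_FF]
    exact Iff.rfl

end Pool.Agent.Results.MP_d470cf_nt.ErdosKac
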