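import Pool.Agent.Lib.MP_d470cf_nt.NP.Main

set_option autoImplicit false

namespace Pool.Agent.Results.MP_d470cf_nt.FewPrimes

open Pool.Agent.Lib.MP_d470cf_nt NumberField NumberField.Units Filter

/-- The field underlying a real quadratic subfield of `ℝ`, as a type. -/
def Fld (K : RealQuadraticField) : Type := K.1

noncomputable instance instField (K : RealQuadraticField) : Field (Fld K) :=
  IntermediateField.toField K.1

instance instNumberField (K : RealQuadraticField) : NumberField (Fld K) :=
  (inferInstance : NumberField K.1)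

/-- The regulator of a real quadratic field. -/
noncomputable def reg (K : RealQuadraticField) : ℝ := regulator (Fld K)

/-- The number of Wall-Sun-Sun primes `p ≤ x` of a real quadratic field. -/
noncomputable def countWSS (K : RealQuadraticField) (x : ℝ) : ℕ :=
  Set.ncard {p : ℕ | (p : ℝ) ≤ x ∧ IsWSS (Fld K) p}

/-- The proportion, among the real quadratic fields of regulator at most `Y`, of those with at
most `m` Wall-Sun-Sun primes `p ≤ x`. -/
noncomputable def proportion (m : ℕ) (x Y : ℝ) : ℝ :=
  (Set.ncard {K : RealQuadraticField | reg K ≤ Y ∧ countWSS K x ≤ m} : ℝ) /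
    (Set.ncard {K : RealQuadraticField | reg K ≤ Y} : ℝ)

/-- Order the real quadratic fields by their regulator. For every `m` the proportion of the fields
of regulator at most `Y` which have at most `m` Wall-Sun-Sun primes `p ≤ x` has the exact order of
magnitude `(log log x) ^ m / log x`, uniformly for `3 ≤ x ≤ exp (κ Y)`. -/
theorem result (m : ℕ) : ∃ κ : ℝ, 0 < κ ∧ ∃ C : ℝ, 0 < C ∧ ∀ᶠ Y : ℝ in atTop, ∀ x : ℝ,
    3 ≤ x → x ≤ Real.exp (κ * Y) →
      (Real.log (Real.log x)) ^ m / (C * Real.log x) ≤ proportion m x Y ∧
        proportion m x Y ≤ C * (Real.log (Real.log x)) ^ m / Real.log x := by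
  classical
  obtain ⟨κ, hκ, C, hC, h⟩ := NP.main m
  refine ⟨κ, hκ, C, hC, ?_⟩
  filter_upwards [h] with Y hY x hx hxY
  have e : proportion m x Y =
      (((EK.FF Y).filter (fun K => EK.wS (nm K) x (tr K).toNat ≤ m)).card : ℝ) /
        ((EK.FF Y).card : ℝ) := by
    unfold proportion
    congr 2
    · rw [← Set.ncard_coe_finset]
      congr 1
      ext K
      rw [Finset.mem_coe, Finset.mem_filter, EK.mem_FF]
      have e1 : countWSS K x = EK.wS (nm K) x (tr K).toNat := EK.wss_count_eq K x (by linarith)
      have e2 : (K ∈ FY Y) ↔ reg K ≤ Y := Iff.rfl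
      rw [Set.mem_setOf_eq, e1, e2]
    · rw [← Set.ncard_coe_finset]
      congr 1
      ext K
      rw [Finset.mem_coe, EK.mem_FF]
      exact Iff.rfl
  rw [e]
  exact hY x hx hxY

end Pool.Agent.Results.MP_d470cf_nt.FewPrimes
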