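import Pool.Agent.Lib.MP_d470cf_nt.Loc.Norm

set_option autoImplicit false

namespace Pool.Agent.Results.MP_d470cf_nt.LocalDensities

open Pool.Agent.Lib.MP_d470cf_nt NumberField NumberField.Units Filter

/-- The field underlying a real quadratic subfield of `ℝ`, as a type. -/
def Fld (K : RealQuadraticField) : Type := K.1

noncomputable instance instField (K : RealQuadraticField) : Field (Fld K) :=
  IntermediateField.toField K.1

instance instNumberField (K : RealQuadraticField) : NumberField (Fld K) :=
  (inferInstance : NumberField K.1)

/-- The regulator of a real quadratic field. -/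
noncomputable def reg (K : RealQuadraticField) : ℝ := regulator (Fld K)

/-- The field `K` has a unit of norm `-1`. -/
def HasNegativeUnit (K : RealQuadraticField) : Prop :=
  ∃ u : (𝓞 (Fld K))ˣ, Algebra.norm ℤ (u : 𝓞 (Fld K)) = -1

/-- Exactly the primes of `W` among the primes of `S` are Wall-Sun-Sun primes for `K`. -/
def Pattern (S W : Finset ℕ) (K : RealQuadraticField) : Prop :=
  ∀ p ∈ S, (IsWSS (Fld K) p ↔ p ∈ W)

/-- The number of the real quadratic fields of regulator at most `Y` with the property `A`. -/
noncomputable def count (A : RealQuadraticField → Prop) (Y : ℝ) : ℝ :=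
  ({K : RealQuadraticField | reg K ≤ Y ∧ A K}.ncard : ℝ)

/-- The proportion, among the real quadratic fields of regulator at most `Y`, of the fields with
the property `A`. -/
noncomputable def proportion (A : RealQuadraticField → Prop) (Y : ℝ) : ℝ :=
  count A Y / count (fun _ => True) Y

/-- The number `r` of square roots of `N` modulo an odd prime `p`, for `N = 1` and `N = -1`. -/
def roots (N : ℤ) (p : ℕ) : ℕ := if N = 1 ∨ p % 4 = 1 then 2 else 0

/-- The local density `(p - r) / p ^ 2 + r / (p ^ 3 (p + 1))`, `r = roots N p`. -/
noncomputable def localDensity (N : ℤ) (p : ℕ) : ℝ :=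
  (p - roots N p) / (p : ℝ) ^ 2 + roots N p / ((p : ℝ) ^ 3 * (p + 1))

/-- One half times the product of the local densities `δ` for the primes of `S` in `W` and of
`1 - δ` for those not in `W`. -/
noncomputable def density (N : ℤ) (S W : Finset ℕ) : ℝ :=
  1 / 2 * ∏ p ∈ S, if p ∈ W then localDensity N p else 1 - localDensity N p

/-- Order the real quadratic fields by their regulator. For every finite set `S` of odd primes and
every finite set `W`, the proportion of the fields which have a unit of norm `-1` (which have no
such unit) and for which exactly the primes in `W`, among those in `S`, are Wall-Sun-Sun primes,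
tends to one half times the product of the local densities. -/
theorem result (S W : Finset ℕ) (hS : ∀ p ∈ S, p.Prime ∧ p ≠ 2) :
    Tendsto (proportion (fun K => HasNegativeUnit K ∧ Pattern S W K)) atTop
      (nhds (density (-1) S W)) ∧
    Tendsto (proportion (fun K => ¬ HasNegativeUnit K ∧ Pattern S W K)) atTop
      (nhds (density 1 S W)) := by
  have hK : ∀ K : RealQuadraticField, HasNegativeUnit K ↔ nm K = -1 := Loc.neg_norm_iff
  have hK1 : ∀ K : RealQuadraticField, ¬ HasNegativeUnit K ↔ nm K = 1 := by
    intro K
    rw [hK K]
    rcases (fu_spec K).2.1 with h | h <;> rw [h] <;> decide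
  have hall : ∀ Y : ℝ, count (fun _ => True) Y =
      (({K : RealQuadraticField | regulator K.1 ≤ Y}).ncard : ℝ) := by
    intro Y
    unfold count
    congr 2
    ext K
    exact ⟨fun h => h.1, fun h => ⟨h, trivial⟩⟩
  constructor
  · have h := Loc.main_norm (-1) (Or.inr rfl) S W hS
    have e : density (-1) S W =
        (∏ p ∈ S, if p ∈ W then Loc.dens (-1) p else 1 - Loc.dens (-1) p) / 2 :=
      one_div_mul_eq_div _ _
    rw [e]
    refine h.congr (fun Y => ?_)
    unfold proportion
    rw [hall Y]
    congr 3
    ext K
    exact and_congr_right (fun _ => and_congr_left (fun _ => (hK K).symm))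
  · have h := Loc.main_norm 1 (Or.inl rfl) S W hS
    have e : density 1 S W =
        (∏ p ∈ S, if p ∈ W then Loc.dens 1 p else 1 - Loc.dens 1 p) / 2 :=
      one_div_mul_eq_div _ _
    rw [e]
    refine h.congr (fun Y => ?_)
    unfold proportion
    rw [hall Y]
    congr 3
    ext K
    exact and_congr_right (fun _ => and_congr_left (fun _ => (hK1 K).symm))

end Pool.Agent.Results.MP_d470cf_nt.LocalDensities
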